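import Pool.Agent.helper14.NR.E8e.All
import Pool.Agent.helper14.NR.Base
import Pool.Agent.helper14.NR.TopC

/-!
Generated: the piece E8e, `8 ≤ e ≤ 12`, `838861 / 524288 ≤ e κ / 2`.
-/

namespace Pool.Agent.helper14.NR.E8e

open Pool.Agent.helper31.EQ.R
open Pool.Agent.helper12.RS
open Pool.Agent.helper63.NF hiding TD
open Pool.Agent.helper14.NR

theorem piece {e κ : ℝ} (h1 : (8 : ℝ) ≤ e) (h2 : e ≤ 12) (hκ : 0 < κ)
    (hb1 : 838861 / 524288 ≤ e * κ / 2)
    (hd : 2 * (Real.cosh κ - 1) / Real.cosh (e * κ / 2) ^ (2 / e) < 4 ^ (1 / e) - 1)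
    (far : FarW e κ) : Nonempty (RDataF e κ) :=
  piece_m certs (by decide +kernel) (by decide +kernel) (m2 := 71518453235712) (m1 := -24477018619904) (m0 := 2431863750656)
    (b1 := 1759219023872) rfl ⟨rfl, by norm_num⟩ rfl (by linarith) hκ
    (inB_e (by norm_num) h1 h2 (by norm_num) (by norm_num))
    (le_trans (by norm_num) hb1) (TopC.top_e8 (by linarith) (by linarith) hd) far

end Pool.Agent.helper14.NR.E8e
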