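import Pool.Agent.helper63.NF.Cert

/-!
Generated: table E8e.
-/

namespace Pool.Agent.helper14.NR.E8e

open Pool.Agent.helper63.NF

def tab : TD where
  strip := false
  bm := some (71518453235712, -24477018619904, 2431863750656, 1759219023872)
  ec := 114621939712
  bc := 2087354105856
  H := [[[83981967552, 14126683072, 4322827264, 1592341056], [452297659392, 15693956096, 95751742528], [-221144062848, 84361280640], [-120630488000]], [[-15754075136, -1692656448, -104359488], [-91830016832, -3035357440], [-232996411776]], [[1157484736, 32574912], [-553680832]], [[-77235520]], [[2204352]]]
  pol := some ⟨-1484448071680, -7112465842176, 6562978463744, 39174379995136, [[-74093969664, 91747108480], [635271083136, 0]], [[-861101771776, -987525272448], [-7761528084032, 0]]⟩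
  a := [[[118919135232, 12075925504, 82966806528, -69488803840], [139148066816, 1598520098816]], [[88835751936, 463142912, 917504, -131072], [8433369088, 4482072576]], [[89719504896, 935591936, 3801088, -655360], [17036410880, 9134735360]], [[86237577216, -898695168, 3604480, -524288], [-16367878144, -8467382272]], [[87094919168, -453902336, 917504, -131072], [-8266252288, -4315283456]], [[87960911872, 0, 0, 0], [0, 0]]]
  j := [274877906944, 1786706395136, 3573412790272, 5222680231936, 7009386627072, 8796093022208]
  c := [879662989312, 879662989312, 659814350848, 549755813888, 439697276928, 329907175424]
  M := [[[[1323277615104, 295567032320, 48296296448], [4579061137408, 4758490382336], [29095635779584]], [[451288367104, -39090520064], [5164458377216]], [[-36453482496, 13151109120], [-2549766356992]], [[-15745482752]], [[-4616421376]], [[-11903172608]]], [[[1310500192256, 208156557312, -118815522816], [3865510084608]], [[74658742272, 4936826880], [606472044544]], [[-2305097728]], [[99024896]]], [[[1313238155264, 201926443008, -115844907008], [4006846070784]], [[73063399424, 4377477120], [554280353792]], [[-2075787264]], [[76283904]]], [[[1318081724416, 207147827200, -110395654144], [4044552798208]], [[70837403648, 2791899136], [545847902208]],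 [[-1735458816]], [[53542912]]], [[[1312056999936, 342988881920, -38732038144], [1699649486848]], [[67385294848, -22663528448], [1018908770304]], [[-391708672]], [[-48168960]]], [[[1106969559040, 593732173824, 105746661376], [5160828928]], [[207225552896, -67989471232], [1348702633984]], [[-30569725952]], [[2023948288]]]]
  l0 := [[[3419171086080, -528781994432, 29239225856], [-4525894269632, -767651218112], [29963128247552]], [[82888000448, 426300869952, -48489656832], [-8662490455616, -1913885807744], [-72853788806848]], [[205438835840, -312293874112, 7206670592], [-7043957790976, -709811443648], [13002293929728]], [[-141380964800, 33607915328], [-5151907234752]], [[-233332018112, 85856930176], [1293249218368]], [[285724928768, -32787845312], [594364137408]], [[-305079918976]], [[264454100928]], [[-138793904768]], [[59165747392]]]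
  q0 := [[892594593344, 431311187712, -81085611328, -3133909376], [7054786089600, 1223673132608, -800664111104], [-21230814268096, -12631521932416], [120036133637824]]
  t := [[[2122595106816, 300547768320, 230174949376, -76608700416], [11176997879808, 8825594118144]], [[1794786197504, 770276458496, 164283023360, 180077985792], [16850246107136, 15004360179712]], [[1625508806656, 477392994304, 292129734656, -162143797248], [13682000134144, 10210649112576]], [[1387060592640, 191487541248, 59918254080, 197657886720], [9232361193472, 5315434184704]], [[1257434054656, 136816689152, -25446580224, 167390806016], [8788571914240, 4876503154688]], [[1323648155648, 383846907904, 115822428160, 42919657472], [13250772926464, 14308804132864]]]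
  y := [24327768506368, 25955561111552, 17325898072064, 7539815088128, 600221679616, -3826815860736]
  sc := [0, 0, 0, 0, 0, 3]
  L := [(0, 2), (0, 3), (1, 1), (1, 2), (2, 0), (2, 1), (3, 0)]
  Lt := [(0, 2), (0, 3), (1, 1)]
  far := 1
  x2 := 10775213113344
  B1 := 659706347520
  C2 := 1327712154624
  f1 := 769658138624
  f2 := 0
  f3 := 0
  is1 := 8796093022208
  s1 := 137438953472

end Pool.Agent.helper14.NR.E8e
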